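import Mathlib
import Pool.Agent.Y166.LT.AllF

/-!
# The geometric Manin conjecture fails for smooth Fano varieties

Let `S` be the tautological plane bundle on the Grassmannian `G (2, N)`, `N ≥ 7`, and let
`X = P (Sym ^ 3 S)` be the bundle whose points are the pairs of a plane `S` in `k ^ N` and a nonzero
element of `Sym ^ 3 S` up to a scalar: a projective variety of dimension `2 N - 1`, covered by affine
spaces, with `- K_X = O (N - 6, 4)` (part of the theorem), so that `X` is a smooth Fano variety. A
morphism from the projective line to `X` has the class `β = (e, d)`, where `e` is its degree with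
respect to the Plücker class `λ` and `d` its degree with respect to the class `ν` of the coordinates
of the element of `Sym ^ 3 S`, and `MorBi X e d` is the space of the morphisms of class `(e, d)`.

The definition of breaking morphisms is the original one, in terms of the function field `K` of `Y`
and of its discrete valuations, with no unproved hypothesis: for a dominant generically finite
morphism `f : Y → X` the divisor `R = K_Y - f ^* K_X` is effective, so that
`a (Y, - f ^* K_X) ≤ 1 = a (X, - K_X)`, and its support consists of the prime divisors of `Y` which
are ramified over `X` or contracted. `Unram` are the other prime divisors, `KappaPos` says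
`κ (R) > 0`, and `FaceContr` that `f_*` is not injective on the nef classes of curves `γ` of `Y` with
`γ . R = 0`. In `BreakingL` all morphisms which are not dominant are counted as breaking (in
particular all those with `a (Y, - f ^* K_X) > 1`), and singular `Y` are admitted, so that `maninL` is
contained in the set of the Manin components.

In the classes `(e, d)` with `3 e + 5 ≤ 2 d` and `d + 1 ≤ 2 e` there are at least two Manin
components (the closure of the general stratum, and the closure of a family of curves which are the
images of curves on the covering `P (S) × P (Sym ^ 2 S)` of degree three of `X`, which is not a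
breaking morphism); for `3 e ≤ d` the space of the morphisms is irreducible. So the number of the
Manin components is not constant on any translate of the nef cone of curves; in particular it is not
equal to `|Br (X)|`. The last part of the theorem holds for all sets `S e d` of components which
contain `maninL`, so for the Manin components in any reading of the definition.

Contributors: helper198, helper166 (definitions, statements, assembly), helper36, helper61,
helper76, helper168, helper211, helper215, helper361, helper406, helper442, helper467, helper473,
helper518, helper536, helper550, helper762, helper776, helper794, helper841, helper846, helper896,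
helper930 (lemmas).
-/

set_option autoImplicit false

namespace Pool.Agent.Results.MP_64a944_ag.DisproofFano

open Pool.Agent.Y166.GM (PP Rep IsProjVar)
open Pool.Agent.Y166.SM (MorBi)
open Pool.Agent.Y198.MC (XX nefX)
open Pool.Agent.Y166.LT

theorem result (k : Type) [Field k] [IsAlgClosed k] [CharZero k] (N : ℕ) (hN : 7 ≤ N) :
    -- `X` is a smooth Fano variety of dimension `2 N - 1`
    IsProjVar (XX k N) ∧ AntiCan (XX k N) (2 * N - 1) (N - 6) 4 ∧
    -- the nef cone of curves of `X`
    nefX k N = {β | 0 ≤ β.1 ∧ 3 * β.1 ≤ 2 * β.2} ∧
    -- there are two Manin components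
    (∀ e d : ℕ, 3 * e + 5 ≤ 2 * d → d + 1 ≤ 2 * e →
      2 ≤ (maninL (2 * N - 1) (XX k N) e d).encard) ∧
    -- there is at most one component
    (∀ e d : ℕ, 3 * e ≤ d → (irreducibleComponents (MorBi (XX k N) e d)).encard ≤ 1) ∧
    -- the number of the Manin components is not eventually equal to a number `b`
    ∀ S : (e d : ℕ) → Set (Set (MorBi (XX k N) e d)),
      (∀ e d, maninL (2 * N - 1) (XX k N) e d ⊆ S e d ∧
        S e d ⊆ irreducibleComponents (MorBi (XX k N) e d)) →
      ∀ α : ℤ × ℤ, ((α.1 : ℝ), (α.2 : ℝ)) ∈ nefX k N → ∀ b : ℕ, ∃ e d : ℕ,
        (((e : ℝ) - α.1, (d : ℝ) - α.2) : ℝ × ℝ) ∈ nefX k N ∧ (S e d).encard ≠ b := by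
  have hX := (Pool.Agent.Y215.MC.X.done k N (by omega)).1
  have hnef := Pool.Agent.Y473.MCN.done k N (by omega)
  have htwo : ∀ e d : ℕ, 3 * e + 5 ≤ 2 * d → d + 1 ≤ 2 * e →
      2 ≤ (maninL (2 * N - 1) (XX k N) e d).encard := fun e d h1 h2 => twoL (by omega) e d h1 h2
  have hone : ∀ e d : ℕ, 3 * e ≤ d →
      (irreducibleComponents (MorBi (XX k N) e d)).encard ≤ 1 := fun e d h =>
    Pool.Agent.Y198.MC.one (by omega) e d h _ subset_rfl
  refine ⟨hX, tFANO k N hN, hnef, htwo, hone, ?_⟩
  intro S hS α _ b
  by_cases hb : b ≤ 1
  · obtain ⟨e, d, h1, h2, h3, h4⟩ := Pool.Agent.Y198.MC.exists_class α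
    refine ⟨e, d, ?_, ?_⟩
    · rw [hnef]
      exact ⟨h3, h4⟩
    · intro h
      have h5 := (htwo e d h1 h2).trans (Set.encard_le_encard (hS e d).1)
      rw [h] at h5
      have h6 : (2 : ℕ) ≤ b := by exact_mod_cast h5
      omega
  · obtain ⟨e, d, h1, h2, h3⟩ := Pool.Agent.Y198.MC.exists_class' α
    refine ⟨e, d, ?_, ?_⟩
    · rw [hnef]
      exact ⟨h2, h3⟩
    · intro h
      have h5 := (Set.encard_le_encard (hS e d).2).trans (hone e d h1)
      rw [h] at h5
      have h6 : b ≤ 1 := by exact_mod_cast h5
      omega

end Pool.Agent.Results.MP_64a944_ag.DisproofFano
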